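import Pool.Agent.ASD.Stmts5
import Pool.Agent.ASD.Stmts7

/-!
# K4B: four blocks with the same `V₀`, `E₀`, equal at the axes (squad ASD)
-/

open scoped BigOperators

set_option linter.unusedSectionVars false

noncomputable section

namespace Pool.Agent.PP.SD.H38

open Pool.Agent.Helper51_AWC Pool.Agent.Helper79_WRA Pool.Agent.PP Pool.Agent.PP.KF
open Pool.Agent.PP.K9 Pool.Agent.PP.K9.H97 Pool.Agent.PP.H75 Pool.Agent.PP.T3 Pool.Agent.PP.SO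
open Pool.Agent.PP.SD

attribute [local instance] Ideal.Quotient.field

section rat

variable {M : Ideal (integralClosure ℤ ℂ)} [M.IsMaximal]

/-- a rational number in the local ring has a denominator prime to `ℓ` -/
theorem k4b_rat {ℓ : ℕ} [hℓ : Fact ℓ.Prime] (hM : (ℓ : integralClosure ℤ ℂ) ∈ M) {q : ℚ}
    (h : (q : ℂ) ∈ RM M) : q ∈ SOR.Rl ℓ := by
  intro hd
  have e1 : (q.num : ℂ) = (q : ℂ) * ((q.den : ℤ) : ℂ) := by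
    have h1 : (q : ℚ) * q.den = q.num := Rat.mul_den_eq_num q
    have h2 := congrArg (fun r : ℚ => (r : ℂ)) h1
    push_cast at h2 ⊢
    exact h2.symm
  have e2 : rr M ((q.den : ℤ) : ℂ) = 0 := by
    rw [dvd_of_rr hℓ.out hM]
    exact_mod_cast hd
  have e3 : rr M (q.num : ℂ) = 0 := by
    rw [e1, rr_mul h (rr_int _).1, e2, mul_zero]
  rw [dvd_of_rr hℓ.out hM] at e3
  have h3 : ℓ ∣ q.num.natAbs := Int.natCast_dvd.1 e3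
  have h4 := Nat.Coprime.eq_one_of_dvd
    (Nat.Coprime.coprime_dvd_left h3 q.reduced) hd
  exact hℓ.out.one_lt.ne' h4

end rat

/-- casts of sums over finite sets -/
theorem k4b_cast {X : Type} (S : Set X) (hS : S.Finite) (f : X → ℚ) :
    (((∑ᶠ x ∈ S, f x : ℚ)) : ℂ) = ∑ᶠ x ∈ S, ((f x : ℚ) : ℂ) :=
  AddMonoidHom.map_finsum_mem f (Rat.castHom ℂ).toAddMonoidHom hS

section gd

variable {V₀ : Type} [CommGroup V₀] [Finite V₀] {ℓ : ℕ} [Fact ℓ.Prime]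
  {E₀ : Subgroup (MulAut V₀)}

/-- the conditions of KAD for the functions -/
structure Gd (ℓ : ℕ) [Fact ℓ.Prime] (E₀ : Subgroup (MulAut V₀)) (D : V₀ → ℚ)
    (N : V₀ → V₀ → ℚ) (k : ℤ) : Prop where
  d : ∀ c, D c ∈ SOR.Rl ℓ
  n : ∀ c d, N c d ∈ SOR.Rl ℓ
  p : ∀ c : V₀, ∀ j : ℕ, ¬ ℓ ∣ j → D (c ^ j) = D c
  s : ∀ c d : V₀, c ≠ 1 → d ≠ 1 → ∃ q ∈ SOR.Rl ℓ,
    ∑ t ∈ Finset.Icc 1 (ℓ - 1), ∑ s ∈ Finset.Icc 1 (ℓ - 1), N (c ^ t) (d ^ s) +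
      nE E₀ d * ∑ t ∈ Finset.Icc 1 (ℓ - 1), D (c ^ t) +
      nE E₀ c * ∑ s ∈ Finset.Icc 1 (ℓ - 1), D (d ^ s) +
      nE E₀ c * nE E₀ d * k = ℓ ^ 2 * q

theorem Gd.sub {D D' : V₀ → ℚ} {N N' : V₀ → V₀ → ℚ} {k k' : ℤ} (h : Gd ℓ E₀ D N k)
    (h' : Gd ℓ E₀ D' N' k') : Gd ℓ E₀ (D - D') (N - N') (k - k') where
  d := fun c => (SOR.Rl ℓ).sub_mem (h.d c) (h'.d c)
  n := fun c d => (SOR.Rl ℓ).sub_mem (h.n c d) (h'.n c d)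
  p := fun c j hj => by simp only [Pi.sub_apply]; rw [h.p c j hj, h'.p c j hj]
  s := fun c d hc hd => by
    obtain ⟨q, hq, e⟩ := h.s c d hc hd
    obtain ⟨q', hq', e'⟩ := h'.s c d hc hd
    refine ⟨q - q', (SOR.Rl ℓ).sub_mem hq hq', ?_⟩
    rw [mul_sub, ← e, ← e']
    simp only [Pi.sub_apply, Finset.sum_sub_distrib]
    push_cast
    ring

theorem Gd.add {D D' : V₀ → ℚ} {N N' : V₀ → V₀ → ℚ} {k k' : ℤ} (h : Gd ℓ E₀ D N k)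
    (h' : Gd ℓ E₀ D' N' k') : Gd ℓ E₀ (D + D') (N + N') (k + k') where
  d := fun c => (SOR.Rl ℓ).add_mem (h.d c) (h'.d c)
  n := fun c d => (SOR.Rl ℓ).add_mem (h.n c d) (h'.n c d)
  p := fun c j hj => by simp only [Pi.add_apply]; rw [h.p c j hj, h'.p c j hj]
  s := fun c d hc hd => by
    obtain ⟨q, hq, e⟩ := h.s c d hc hd
    obtain ⟨q', hq', e'⟩ := h'.s c d hc hd
    refine ⟨q + q', (SOR.Rl ℓ).add_mem hq hq', ?_⟩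
    rw [mul_add, ← e, ← e']
    simp only [Pi.add_apply, Finset.sum_add_distrib]
    push_cast
    ring

/-- the main part for rational functions -/
def mn (E₀ : Subgroup (MulAut V₀)) (ℓ : ℕ) (D : V₀ → ℚ) (N : V₀ → V₀ → ℚ) (x₁ x₂ : V₀ → ℤ)
    (c d : V₀) : ℚ :=
  ((x₁ c⁻¹ * x₂ d⁻¹ : ℤ) : ℚ) / ℓ ^ 2 * N c d -
    (kE E₀ c : ℚ)⁻¹ * ∑ᶠ σ ∈ {σ : MulAut V₀ | σ ∈ E₀ ∧ c * σ d ≠ 1},
      ((x₁ (c * σ d)⁻¹ * x₂ (σ⁻¹ (c * σ d))⁻¹ : ℤ) : ℚ) / ℓ ^ 2 * D (c * σ d)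

theorem mn_sub (D D' : V₀ → ℚ) (N N' : V₀ → V₀ → ℚ) (x₁ x₂ : V₀ → ℤ) (c d : V₀) :
    mn E₀ ℓ (D - D') (N - N') x₁ x₂ c d =
      mn E₀ ℓ D N x₁ x₂ c d - mn E₀ ℓ D' N' x₁ x₂ c d := by
  unfold mn
  simp only [Pi.sub_apply, mul_sub]
  rw [finsum_mem_sub_distrib (fun σ : MulAut V₀ =>
      ((x₁ (c * σ d)⁻¹ * x₂ (σ⁻¹ (c * σ d))⁻¹ : ℤ) : ℚ) / ℓ ^ 2 * D (c * σ d))
    (fun σ : MulAut V₀ =>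
      ((x₁ (c * σ d)⁻¹ * x₂ (σ⁻¹ (c * σ d))⁻¹ : ℤ) : ℚ) / ℓ ^ 2 * D' (c * σ d))
    (Set.toFinite _)]
  ring

theorem mn_add (D D' : V₀ → ℚ) (N N' : V₀ → V₀ → ℚ) (x₁ x₂ : V₀ → ℤ) (c d : V₀) :
    mn E₀ ℓ (D + D') (N + N') x₁ x₂ c d =
      mn E₀ ℓ D N x₁ x₂ c d + mn E₀ ℓ D' N' x₁ x₂ c d := by
  unfold mn
  simp only [Pi.add_apply, mul_add]
  rw [finsum_mem_add_distrib (Set.toFinite _)]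
  ring

end gd

/-- `lf ρ v₀` is a lift -/
theorem lf_Lf {V₀ : Type} [CommGroup V₀] {ℓ : ℕ} [Fact ℓ.Prime] (ρ : V₀ → ZMod ℓ) (v₀ : V₀) :
    Lf ρ (lf ρ v₀) := by
  intro v
  refine ⟨?_, fun h => ?_⟩
  · unfold lf
    split_ifs
    · push_cast
      rw [ZMod.natCast_zmod_val, ZMod.natCast_self, add_zero]
    · push_cast
      rw [ZMod.natCast_zmod_val, add_zero]
  · unfold lf
    rw [h, if_neg (fun h' => h'.2 rfl)]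
    simp

/-- the rational functions of one block -/
theorem blk (hL : SO.HL12Stmt) (hS : SO.HSmStmt) {ℓ : ℕ} [Fact ℓ.Prime]
    {M : Ideal (integralClosure ℤ ℂ)} [M.IsMaximal] (hM : (ℓ : integralClosure ℤ ℂ) ∈ M)
    {V₀ : Type} [CommGroup V₀] [Finite V₀] {E₀ : Subgroup (MulAut V₀)}
    (hF : Fq ℓ V₀ E₀) (hR : ∃ c : V₀, Rgl E₀ c) {G : Type} [Group G] [Finite G]
    {B : Bk (FF M) V₀ G} (hB : Sb ℓ M E₀ B) :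
    ∃ (D : V₀ → ℚ) (N : V₀ → V₀ → ℚ), Gd ℓ E₀ D N (IrrE M B.e).ncard ∧
      ∀ (x₁ x₂ : V₀ → ℤ) (c d : V₀),
        MN E₀ ℓ B x₁ x₂ c d = ((mn E₀ ℓ D N x₁ x₂ c d : ℚ) : ℂ) := by
  obtain ⟨h1, h2, h3, -⟩ := hL ℓ M hM V₀ hF.ex E₀ G B hB
  obtain ⟨-, h4, -⟩ := hS ℓ M hM V₀ hF.ex hF.cd E₀ G B hB hR
  choose D hD hD' using h1
  choose N hN hN' using h2
  refine ⟨D, N, ⟨hD, hN, fun c j hj => ?_, fun c d hc hd => ?_⟩, fun x₁ x₂ c d => ?_⟩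
  · have := h3 c j hj
    rw [hD', hD'] at this
    exact_mod_cast this
  · obtain ⟨q, hq, e⟩ := h4 c d hc hd
    refine ⟨q, hq, ?_⟩
    simp only [hD', hN'] at e
    have e2 : (((∑ t ∈ Finset.Icc 1 (ℓ - 1), ∑ s ∈ Finset.Icc 1 (ℓ - 1), N (c ^ t) (d ^ s) +
      nE E₀ d * ∑ t ∈ Finset.Icc 1 (ℓ - 1), D (c ^ t) +
      nE E₀ c * ∑ s ∈ Finset.Icc 1 (ℓ - 1), D (d ^ s) +
      nE E₀ c * nE E₀ d * (((IrrE M B.e).ncard : ℤ) : ℚ) : ℚ)) : ℂ) =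
        ((ℓ ^ 2 * q : ℚ) : ℂ) := by
      rw [← e]
      push_cast
      rfl
    exact_mod_cast e2
  · unfold MN mn
    rw [hN']
    push_cast
    rw [k4b_cast _ (Set.toFinite _)]
    congr 2
    refine finsum_mem_congr rfl fun σ _ => ?_
    rw [hD']
    push_cast
    rfl

theorem pe_fst (hPem : PemStmt) {ℓ : ℕ} [Fact ℓ.Prime] {n m : ℕ} {X Y : Type} [Group X] [Finite X]
    [Group Y] [Finite Y] (h : PE ℓ n m (X × Y)) : PE ℓ n m X :=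
  (hPem ℓ n (X × Y) X).2.1 (MonoidHom.inl X Y) (fun _ _ h => congrArg Prod.fst h) m h

theorem pe_snd (hPem : PemStmt) {ℓ : ℕ} [Fact ℓ.Prime] {n m : ℕ} {X Y : Type} [Group X] [Finite X]
    [Group Y] [Finite Y] (h : PE ℓ n m (X × Y)) : PE ℓ n m Y :=
  (hPem ℓ n (X × Y) Y).2.1 (MonoidHom.inr X Y) (fun _ _ h => congrArg Prod.snd h) m h

/-- K4B -/
theorem k4b (hDix : DixStmt) (hPex : SO.PexStmt) (hPem : PemStmt) (hCpd : CpdStmt)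
    (hKad : KadStmt) (hL : SO.HL12Stmt) (hS : SO.HSmStmt) (hCbx : CbxStmt) : K4bStmt := by
  classical
  intro ℓ _ M _ hM h2 V₀ _ _ E₀ A₁ A₂ hD G₀ G₁ G₂ G₃ _ _ _ _ _ _ _ _ B₀ B₁ B₂ B₃ j₁ j₂ j₃ j₄
    S₀ S₁ S₂ S₃ p₁ p₂ p₃ p₄
  obtain ⟨-, -, -, hRg, ⟨ρ, hρ, hρ2, hρ1⟩, -, -⟩ := hDix ℓ V₀ E₀ A₁ A₂ hD
  obtain ⟨r₀, m₀, hr₀, hm₀⟩ := hPex ℓ G₀
  obtain ⟨r₁, m₁, hr₁, hm₁⟩ := hPex ℓ G₁
  obtain ⟨r₂, m₂, hr₂, hm₂⟩ := hPex ℓ G₂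
  obtain ⟨r₃, m₃, hr₃, hm₃⟩ := hPex ℓ G₃
  obtain ⟨r, hrr⟩ : ∃ r, r = r₀ + r₁ + r₂ + r₃ := ⟨_, rfl⟩
  have hr : 0 < r := by omega
  have q₀ : ∃ m, PE ℓ (ℓ ^ r) m G₀ := (hPem ℓ 0 G₀ G₀).2.2 r₀ r hr₀ (by omega) ⟨m₀, hm₀⟩
  have q₁ : ∃ m, PE ℓ (ℓ ^ r) m G₁ := (hPem ℓ 0 G₁ G₁).2.2 r₁ r hr₁ (by omega) ⟨m₁, hm₁⟩
  have q₂ : ∃ m, PE ℓ (ℓ ^ r) m G₂ := (hPem ℓ 0 G₂ G₂).2.2 r₂ r hr₂ (by omega) ⟨m₂, hm₂⟩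
  have q₃ : ∃ m, PE ℓ (ℓ ^ r) m G₃ := (hPem ℓ 0 G₃ G₃).2.2 r₃ r hr₃ (by omega) ⟨m₃, hm₃⟩
  have hK := fun (v₀ c d : V₀) (hc : c ∈ A₁) (hd : d ∈ A₁) (hc1 : c ≠ 1) (hd1 : d ≠ 1) =>
    hCpd ℓ M hM h2 V₀ E₀ A₁ A₂ hD (ℓ ^ r) r hr rfl ρ ρ (lf ρ v₀) (lf ρ 1) c d hc hd hc1 hd1 hρ hρ
      (lf_Lf ρ v₀) (lf_Lf ρ 1) (fun v hv => ⟨hρ2 v hv, hρ2 v hv⟩)
  choose K hK using hK
  obtain ⟨k, hk⟩ : ∃ k, ∀ v₀ c d hc hd hc1 hd1, K v₀ c d hc hd hc1 hd1 ≤ k := by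
    let K' : V₀ × V₀ × V₀ → ℕ := fun p =>
      if h : p.2.1 ∈ A₁ ∧ p.2.2 ∈ A₁ ∧ p.2.1 ≠ 1 ∧ p.2.2 ≠ 1 then
        K p.1 p.2.1 p.2.2 h.1 h.2.1 h.2.2.1 h.2.2.2 else 0
    obtain ⟨k, hk⟩ := (Set.finite_range K').bddAbove
    refine ⟨k, fun v₀ c d hc hd hc1 hd1 => ?_⟩
    have h := hk ⟨(v₀, c, d), rfl⟩
    have e : K' (v₀, c, d) = K v₀ c d hc hd hc1 hd1 := dif_pos ⟨hc, hd, hc1, hd1⟩
    rwa [e] at h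
  obtain ⟨H, _, _, BR, kR, SR, hRm, hX⟩ := hCbx ℓ M hM h2 V₀ E₀ A₁ A₂ hD
  obtain ⟨G₀', _, _, B₀', i₀, S₀', q₀', a₀, b₀, u₀, n₀⟩ := hX G₀ B₀ S₀ r k hr
  obtain ⟨G₁', _, _, B₁', i₁, S₁', q₁', a₁, b₁, u₁, n₁⟩ := hX G₁ B₁ S₁ r k hr
  obtain ⟨G₂', _, _, B₂', i₂, S₂', q₂', a₂, b₂, u₂, n₂⟩ := hX G₂ B₂ S₂ r k hr
  obtain ⟨G₃', _, _, B₃', i₃, S₃', q₃', a₃, b₃, u₃, n₃⟩ := hX G₃ B₃ S₃ r k hr
  obtain ⟨m, hm⟩ : ∃ m, PE ℓ (ℓ ^ r) m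
      (G₀ × G₁ × G₂ × G₃ × G₀' × G₁' × G₂' × G₃' × H) :=
    (hPem ℓ _ _ _).1 q₀ ((hPem ℓ _ _ _).1 q₁ ((hPem ℓ _ _ _).1 q₂ ((hPem ℓ _ _ _).1 q₃
      ((hPem ℓ _ _ _).1 q₀' ((hPem ℓ _ _ _).1 q₁' ((hPem ℓ _ _ _).1 q₂'
        ((hPem ℓ _ _ _).1 q₃' (hRm r hr))))))))
  have e₀ := pe_fst hPem hm
  have t₀ := pe_snd hPem hm
  have e₁ := pe_fst hPem t₀
  have t₁ := pe_snd hPem t₀
  have e₂ := pe_fst hPem t₁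
  have t₂ := pe_snd hPem t₁
  have e₃ := pe_fst hPem t₂
  have t₃ := pe_snd hPem t₂
  have e₄ := pe_fst hPem t₃
  have t₄ := pe_snd hPem t₃
  have e₅ := pe_fst hPem t₄
  have t₅ := pe_snd hPem t₄
  have e₆ := pe_fst hPem t₅
  have t₆ := pe_snd hPem t₅
  have e₇ := pe_fst hPem t₆
  have e₈ := pe_snd hPem t₆
  obtain ⟨D₀, N₀, g₀, f₀⟩ := blk hL hS hM hD.toFq hRg S₀.toSb
  obtain ⟨D₁, N₁, g₁, f₁⟩ := blk hL hS hM hD.toFq hRg S₁.toSb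
  obtain ⟨D₂, N₂, g₂, f₂⟩ := blk hL hS hM hD.toFq hRg S₂.toSb
  obtain ⟨D₃, N₃, g₃, f₃⟩ := blk hL hS hM hD.toFq hRg S₃.toSb
  obtain ⟨D₀', N₀', g₀', f₀'⟩ := blk hL hS hM hD.toFq hRg S₀'.toSb
  obtain ⟨D₁', N₁', g₁', f₁'⟩ := blk hL hS hM hD.toFq hRg S₁'.toSb
  obtain ⟨D₂', N₂', g₂', f₂'⟩ := blk hL hS hM hD.toFq hRg S₂'.toSb
  obtain ⟨D₃', N₃', g₃', f₃'⟩ := blk hL hS hM hD.toFq hRg S₃'.toSb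
  rw [n₀] at g₀'
  rw [n₁] at g₁'
  rw [n₂] at g₂'
  rw [n₃] at g₃'
  have g := (((g₀.sub g₀').sub (g₁.sub g₁')).sub (g₂.sub g₂')).add (g₃.sub g₃')
  have h := hKad ℓ h2 V₀ E₀ A₁ A₂ hD ρ hρ hρ2 hρ1 _ _ _ g.d g.n g.p
    (fun c hc d hd hc1 hd1 v₀ => ?_) g.s
  · refine cast (congrArg (fun z : ℤ => ((ℓ ^ 2 : ℕ) : ℤ) ∣ z) ?_) h
    ring
  · show mn E₀ ℓ (D₀ - D₀' - (D₁ - D₁') - (D₂ - D₂') + (D₃ - D₃'))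
      (N₀ - N₀' - (N₁ - N₁') - (N₂ - N₂') + (N₃ - N₃')) (lf ρ v₀) (lf ρ 1) c d ∈ SOR.Rl ℓ
    apply k4b_rat hM
    have t := hK v₀ c d hc hd hc1 hd1 k (hk v₀ c d hc hd hc1 hd1) G₀ G₁ G₂ G₃ G₀' G₁' G₂' G₃' H
      B₀ B₁ B₂ B₃ B₀' B₁' B₂' B₃' BR j₁ j₂ j₃ j₄ i₀ i₁ i₂ i₃ m S₀ S₁ S₂ S₃ S₀' S₁' S₂' S₃' SR
      e₀ e₁ e₂ e₃ e₄ e₅ e₆ e₇ e₈ p₁ p₂ p₃ p₄ a₀ b₀ a₁ b₁ a₂ b₂ a₃ b₃ u₀ u₁ u₂ u₃
    rw [f₀, f₁, f₂, f₃, f₀', f₁', f₂', f₃'] at t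
    rw [mn_add, mn_sub, mn_sub, mn_sub, mn_sub, mn_sub, mn_sub]
    refine cast (congrArg (fun z : ℂ => z ∈ RM M) ?_) t
    push_cast
    ring

end Pool.Agent.PP.SD.H38
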