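import Pool.Agent.ASD.Stmts5

/-!
# PAX: the parts at the axes for pairs (squad ASD)
-/

open scoped BigOperators

noncomputable section

namespace Pool.Agent.PP.SD.H38

open Pool.Agent.Helper51_AWC Pool.Agent.Helper79_WRA Pool.Agent.PP Pool.Agent.PP.KF
open Pool.Agent.PP.K9 Pool.Agent.PP.K9.H97 Pool.Agent.PP.H75 Pool.Agent.PP.T3 Pool.Agent.PP.SO
open Pool.Agent.PP.SD

attribute [local instance] Ideal.Quotient.field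

/-- the subgroup generated by the `κ^k p` is `A₂` -/
theorem aL_eq {ℓ : ℕ} [Fact ℓ.Prime] {V₀ : Type} [CommGroup V₀] [Finite V₀]
    (hex : ∀ v : V₀, v ^ ℓ = 1) (A : Subgroup V₀) (hA : Nat.card A = ℓ) {n : ℕ} (κ w : V₀)
    (σ : MulAut V₀) (hw : w ∈ A) (hw1 : w ≠ 1) (L : Set (SO.SS n V₀)) (hL : L ⊆ TP n κ w σ)
    (hp : pL L ≠ ⊥) : aL κ L = A := by
  have hle : aL κ L ≤ A := by
    refine (Subgroup.closure_le A).mpr ?_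
    rintro a ⟨s, hs, rfl⟩
    have h1 := (hL hs).1
    have h2 : κ ^ (s.2.1 : ℕ) * s.2.2.1 = w⁻¹ ^ (s.2.1 : ℕ) := by
      rw [h1, ← mul_pow]; simp
    show κ ^ (s.2.1 : ℕ) * s.2.2.1 ∈ A
    rw [h2]
    exact A.pow_mem (A.inv_mem hw) _
  have hne : aL κ L ≠ ⊥ := by
    intro h0
    apply hp
    refine Subgroup.closure_eq_bot_iff.mpr ?_
    rintro p ⟨s, hs, rfl⟩
    have h1 := (hL hs).1
    have h2 : κ ^ (s.2.1 : ℕ) * s.2.2.1 = w⁻¹ ^ (s.2.1 : ℕ) := by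
      rw [h1, ← mul_pow]; simp
    have h3 : κ ^ (s.2.1 : ℕ) * s.2.2.1 ∈ aL κ L := Subgroup.subset_closure ⟨s, hs, rfl⟩
    rw [h0, Subgroup.mem_bot, h2, inv_pow, inv_eq_one] at h3
    have h4 : orderOf w = ℓ := orderOf_eq_prime (hex w) hw1
    have h5 : ℓ ∣ (s.2.1 : ℕ) := by
      rw [← h4]; exact orderOf_dvd_of_pow_eq_one h3
    obtain ⟨t, ht⟩ := h5
    show s.2.2.1 = 1
    rw [h1, ht, pow_mul, hex, one_pow]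
  have hd : Nat.card (aL κ L) ∣ ℓ := by
    rw [← hA]; exact Subgroup.card_dvd_of_le hle
  rcases (Nat.dvd_prime (Fact.out : ℓ.Prime)).mp hd with h | h
  · exact absurd (Subgroup.card_eq_one.mp h) hne
  · exact Subgroup.eq_of_le_of_card_ge hle (by rw [h, hA])

theorem pax (hT : PrtStmt) (hH : PrhStmt) (hO : ProStmt) : PaxStmt := by
  intro ℓ _ M _ hl hl2 V₀ G H _ _ _ _ _ _ E₀ A₁ A₂ hD B B' j hB hB' n m hPE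
  have hFq : Fq ℓ V₀ E₀ := hD.toFq
  refine ⟨fun hP c d F₁₃ F₁₂ => ⟨?_, ?_⟩, fun hP c d F₁₂ => ?_⟩
  · unfold AX1
    refine finsum_mem_congr rfl fun L hL => ?_
    rw [hT ℓ M hl hl2 V₀ G H E₀ A₁ hFq B B' j hB hB' hP n m hPE c d L hL.1 hL.2]
  · unfold AX2
    rw [show (∑ᶠ L ∈ {L : Set (SO.SS n V₀) | pL L = A₁}, (mob F₁₂ L : ℂ) *
      ∑ᶠ σ ∈ {σ | σ ∈ EL E₀ L ∧ aL (c * σ d) L = A₁}, HK B' m (c * σ d) L) =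
      ∑ᶠ L ∈ {L : Set (SO.SS n V₀) | pL L = A₁}, (mob F₁₂ L : ℂ) *
      ∑ᶠ σ ∈ {σ | σ ∈ EL E₀ L ∧ aL (c * σ d) L = A₁}, HK B m (c * σ d) L from ?_]
    refine finsum_mem_congr rfl fun L _ => ?_
    rw [show (∑ᶠ σ ∈ {σ | σ ∈ EL E₀ L ∧ aL (c * σ d) L = A₁}, HK B' m (c * σ d) L) =
      ∑ᶠ σ ∈ {σ | σ ∈ EL E₀ L ∧ aL (c * σ d) L = A₁}, HK B m (c * σ d) L from ?_]
    exact finsum_mem_congr rfl fun σ hσ =>
      hH ℓ M hl hl2 V₀ G H E₀ A₁ hFq B B' j hB hB' hP n m hPE (c * σ d) L hσ.2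
  · have h5 : ∀ (κ w : V₀) (σ : MulAut V₀), w ∈ A₂ → w ≠ 1 →
        T5 B' m κ w σ F₁₂ = T5 B m κ w σ F₁₂ := by
      intro κ w σ hw hw1
      unfold T5
      refine finsum_mem_congr rfl fun L hL => ?_
      rw [hH ℓ M hl hl2 V₀ G H E₀ A₂ hFq B B' j hB hB' hP n m hPE κ L
        (aL_eq hD.ex A₂ hD.c2 κ w σ hw hw1 L hL.1 hL.2)]
    refine ⟨?_, ?_, h5, ?_⟩
    · unfold AX3
      rw [show (∑ᶠ L ∈ {L : Set (SO.SS n V₀) | pL L = A₂ ∧ qL L = A₂ ∧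
        ∀ s ∈ L, (s.1 : ℕ) = 0 ∧ (s.2.1 : ℕ) = 0}, (mob F₁₂ L : ℂ) * W12 B' m c d L) =
        ∑ᶠ L ∈ {L : Set (SO.SS n V₀) | pL L = A₂ ∧ qL L = A₂ ∧
        ∀ s ∈ L, (s.1 : ℕ) = 0 ∧ (s.2.1 : ℕ) = 0}, (mob F₁₂ L : ℂ) * W12 B m c d L from ?_]
      refine finsum_mem_congr rfl fun L hL => ?_
      rw [hO ℓ M hl hl2 V₀ G H E₀ A₂ hFq B B' j hB hB' hP n m hPE c d L hL.1 hL.2.1 hL.2.2]
    · unfold AX4
      rw [show (∑ᶠ L ∈ {L : Set (SO.SS n V₀) | pL L = ⊤}, (mob F₁₂ L : ℂ) *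
        ∑ᶠ σ ∈ {σ | σ ∈ EL E₀ L ∧ aL (c * σ d) L = A₂}, HK B' m (c * σ d) L) =
        ∑ᶠ L ∈ {L : Set (SO.SS n V₀) | pL L = ⊤}, (mob F₁₂ L : ℂ) *
        ∑ᶠ σ ∈ {σ | σ ∈ EL E₀ L ∧ aL (c * σ d) L = A₂}, HK B m (c * σ d) L from ?_]
      refine finsum_mem_congr rfl fun L _ => ?_
      rw [show (∑ᶠ σ ∈ {σ | σ ∈ EL E₀ L ∧ aL (c * σ d) L = A₂}, HK B' m (c * σ d) L) =
        ∑ᶠ σ ∈ {σ | σ ∈ EL E₀ L ∧ aL (c * σ d) L = A₂}, HK B m (c * σ d) L from ?_]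
      exact finsum_mem_congr rfl fun σ hσ =>
        hH ℓ M hl hl2 V₀ G H E₀ A₂ hFq B B' j hB hB' hP n m hPE (c * σ d) L hσ.2
    · intro U
      unfold AX5
      rw [show (∑ᶠ σ ∈ {σ : MulAut V₀ | σ ∈ E₀ ∧ c * σ d ≠ 1},
        ∑ᶠ w ∈ {w : V₀ | w ∈ A₂ ∧ w ≠ 1}, (U (Subgroup.zpowers (c * σ d * w)) : ℂ) *
          T5 B' m (c * σ d) w σ F₁₂) =
        ∑ᶠ σ ∈ {σ : MulAut V₀ | σ ∈ E₀ ∧ c * σ d ≠ 1},
        ∑ᶠ w ∈ {w : V₀ | w ∈ A₂ ∧ w ≠ 1}, (U (Subgroup.zpowers (c * σ d * w)) : ℂ) *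
          T5 B m (c * σ d) w σ F₁₂ from ?_]
      refine finsum_mem_congr rfl fun σ _ => finsum_mem_congr rfl fun w hw => ?_
      rw [h5 (c * σ d) w σ hw.1 hw.2]

end Pool.Agent.PP.SD.H38
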